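import Pool.Agent.Run7.h630.QW.Iface
import Pool.Agent.Run7.h882.QF.R7
import Pool.Agent.Run7.h771.QF.R1

/-!
# The second and the fourth moment for fixed centre elements (piece W3)
-/

open MeasureTheory Matrix Filter Topology
open scoped Matrix.Norms.Frobenius ComplexConjugate

namespace Run7.h771.QW

open Run7.h4.YM Run7.h630.ML Run7.h630.MQ Run7.h630.QC Run7.h771.MQ Run7.h771.QC Run7.h370.QC
  Run7.h370.MQ Run7.h630.QF Run7.h630.QW Run7.h771.QF

noncomputable section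

variable {N n L l : ℕ}

/-- the general form of the estimate, with a pointwise bound of the remainder -/
theorem gen_form [NeZero N] [NeZero n] [NeZero L] [NeZero l] [MeasurableSpace (SU N)]
    [BorelSpace (SU N)] (μ : Measure (SU N)) [IsProbabilityMeasure μ] [μ.IsHaarMeasure] (k : ℕ)
    (q : ZMod n × ZMod L → ZMod N) (β : ℝ)
    (f : Col N → Fin 4 → Fin 4 → Site n L l → ℂ) (a : Col N → Fin 4 → Site n L l → ℂ)
    (V dF : (Link n L l → SU N) → ℝ) (hmF : Measurable dF) (hbF : ∃ B, ∀ U, |dF U| ≤ B)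
    (hmV : Measurable V) (hbV : ∃ B, ∀ U, |V U| ≤ B) (c K : ℝ)
    (g g' : ℝ → ℝ) (hg : Continuous g) (hg' : Continuous g')
    (hpt : ∀ U, |β * (dSq k q U (Ka a U) + Ph k q f U) * g (Ph k q f U) -
      V U * g (Ph k q f U) - g' (Ph k q f U) * (dF U + c)| ≤ K * (1 + (β * Sq k q U) ^ 3))
    (hSD : ∫ U, (β * dSq k q U (Ka a U) * g (Ph k q f U) - V U * g (Ph k q f U) -
        g' (Ph k q f U) * dF U) * Real.exp (-(β * Sq k q U))
        ∂(Measure.pi fun _ : Link n L l => μ) = 0) :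
    |∫ U, (β * Ph k q f U * g (Ph k q f U) - c * g' (Ph k q f U)) *
        Real.exp (-(β * Sq k q U)) ∂(Measure.pi fun _ : Link n L l => μ)| ≤
      K * ∫ U, (1 + (β * Sq k q U) ^ 3) * Real.exp (-(β * Sq k q U))
        ∂(Measure.pi fun _ : Link n L l => μ) := by
  have hP := Run7.h771.QF.cont_Ph (N := N) k q f
  have hS := continuous_Sq (n := n) (L := L) (l := l) k q
  have hE : Continuous fun U : Link n L l → SU N => Real.exp (-(β * Sq k q U)) :=
    Real.continuous_exp.comp (continuous_const.mul hS).neg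
  have hD : Continuous fun U : Link n L l → SU N => dSq k q U (Ka a U) :=
    cont_dSq k q fun e => Run7.h771.QF.cont_Ka a e
  have hG : Continuous fun U : Link n L l → SU N => g (Ph k q f U) := hg.comp hP
  have hG' : Continuous fun U : Link n L l → SU N => g' (Ph k q f U) := hg'.comp hP
  have hci : ∀ u : (Link n L l → SU N) → ℝ, Continuous u →
      Integrable u (Measure.pi fun _ : Link n L l => μ) := by
    intro u hu
    obtain ⟨C, _, hC⟩ := exists_bound u hu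
    exact Integrable.of_bound hu.aestronglyMeasurable C (Eventually.of_forall hC)
  obtain ⟨CF, hCF⟩ := hbF
  obtain ⟨CV, hCV⟩ := hbV
  have i1 : Integrable (fun U : Link n L l → SU N =>
      (β * Ph k q f U * g (Ph k q f U) - c * g' (Ph k q f U)) * Real.exp (-(β * Sq k q U)))
      (Measure.pi fun _ : Link n L l => μ) :=
    hci _ ((((continuous_const.mul hP).mul hG).sub (continuous_const.mul hG')).mul hE)
  have i3 : Integrable (fun U : Link n L l → SU N =>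
      (β * dSq k q U (Ka a U) * g (Ph k q f U) - V U * g (Ph k q f U) -
        g' (Ph k q f U) * dF U) * Real.exp (-(β * Sq k q U)))
      (Measure.pi fun _ : Link n L l => μ) := by
    obtain ⟨C1, hC1, b1⟩ := exists_bound _ ((continuous_const.mul hD).mul hG)
    obtain ⟨C2, hC2, b2⟩ := exists_bound _ hG
    obtain ⟨C3, hC3, b3⟩ := exists_bound _ hG'
    obtain ⟨C4, hC4, b4⟩ := exists_bound _ hE
    refine Integrable.of_bound (Measurable.aestronglyMeasurable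
      (((((continuous_const.mul hD).mul hG).measurable.sub
      (hmV.mul hG.measurable)).sub (hG'.measurable.mul hmF)).mul hE.measurable))
      ((C1 + CV * C2 + C3 * CF) * C4) (Eventually.of_forall fun U => ?_)
    have hCV0 := (abs_nonneg _).trans (hCV U)
    have hCF0 := (abs_nonneg _).trans (hCF U)
    rw [Real.norm_eq_abs, abs_mul]
    refine mul_le_mul ?_ (b4 U) (abs_nonneg _) (by positivity)
    refine (abs_sub _ _).trans (add_le_add ((abs_sub _ _).trans (add_le_add (b1 U) ?_)) ?_)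
    · rw [abs_mul]
      exact mul_le_mul (hCV U) (b2 U) (abs_nonneg _) hCV0
    · rw [abs_mul]
      exact mul_le_mul (b3 U) (hCF U) (abs_nonneg _) hC3
  obtain ⟨R, hR⟩ : ∃ R : (Link n L l → SU N) → ℝ, R = fun U =>
    (β * (dSq k q U (Ka a U) + Ph k q f U) * g (Ph k q f U) - V U * g (Ph k q f U) -
      g' (Ph k q f U) * (dF U + c)) * Real.exp (-(β * Sq k q U)) := ⟨_, rfl⟩
  have hRe : R = fun U => ((β * dSq k q U (Ka a U) * g (Ph k q f U) - V U * g (Ph k q f U) -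
        g' (Ph k q f U) * dF U) * Real.exp (-(β * Sq k q U))) +
      (β * Ph k q f U * g (Ph k q f U) - c * g' (Ph k q f U)) *
        Real.exp (-(β * Sq k q U)) := by
    rw [hR]
    funext U
    ring
  have iR : Integrable R (Measure.pi fun _ : Link n L l => μ) := by
    rw [hRe]
    exact i3.add i1
  have hInt : ∫ U, R U ∂(Measure.pi fun _ : Link n L l => μ) =
      ∫ U, (β * Ph k q f U * g (Ph k q f U) - c * g' (Ph k q f U)) *
        Real.exp (-(β * Sq k q U)) ∂(Measure.pi fun _ : Link n L l => μ) := by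
    rw [hRe]
    beta_reduce
    rw [integral_add i3 i1, hSD, zero_add]
  rw [← hInt, ← Real.norm_eq_abs]
  refine (norm_integral_le_integral_norm R).trans ?_
  rw [← integral_const_mul]
  refine integral_mono iR.norm (hci _ (continuous_const.mul ((continuous_const.add
    ((continuous_const.mul hS).pow 3)).mul hE))) fun U => ?_
  rw [hR, Real.norm_eq_abs, abs_mul, Real.abs_exp, ← mul_assoc]
  exact mul_le_mul_of_nonneg_right (hpt U) (Real.exp_pos _).le

/-- the bounds of the two remainders -/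
theorem rem_bound {s r x K1 K2 K3 K4 A P V F : ℝ} (hs : 1 ≤ s) (hr : 0 ≤ r)
    (hx : (s * r) ^ 2 = 2 * x) (h1 : 0 ≤ K1) (h2 : 0 ≤ K2) (h3 : 0 ≤ K3) (h4 : 0 ≤ K4)
    (bA : |A| ≤ K1 * r ^ 2) (bP : |P| ≤ K4 * r) (bV : |V| ≤ K2 * r) (bF : |F| ≤ K3 * r) :
    |s ^ 2 * A * P - V * P - 1 * F| ≤ 24 * (K1 * K4 + K2 * K4 + K3) / s * (1 + x ^ 3) ∧
    |s ^ 2 * A * (s ^ 2 * P ^ 3) - V * (s ^ 2 * P ^ 3) - 3 * s ^ 2 * P ^ 2 * F| ≤
      24 * (K1 * K4 ^ 3 + K2 * K4 ^ 3 + 3 * K4 ^ 2 * K3) / s * (1 + x ^ 3) := by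
  have hs0 : 0 < s := by linarith
  obtain ⟨y, hy⟩ : ∃ y, y = s * r := ⟨_, rfl⟩
  have hy0 : 0 ≤ y := by rw [hy]; positivity
  have hry : r = y / s := by rw [hy]; field_simp
  rw [← hy] at hx
  have hx3 : 8 * x ^ 3 = y ^ 6 := by
    have : x = y ^ 2 / 2 := by linarith
    rw [this]; ring
  have hpw : ∀ m : ℕ, m ≤ 6 → y ^ m ≤ 1 + 8 * x ^ 3 := by
    intro m hm
    rw [hx3]
    rcases le_total y 1 with h | h
    · have : y ^ m ≤ 1 := pow_le_one₀ hy0 h
      have : 0 ≤ y ^ 6 := by positivity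
      linarith
    · have : y ^ m ≤ y ^ 6 := pow_le_pow_right₀ h hm
      linarith
  have hx0 : 0 ≤ x := by nlinarith [sq_nonneg y]
  have hfin : ∀ m m' m'' : ℕ, m ≤ 6 → m' ≤ 6 → m'' ≤ 6 →
      y ^ m + y ^ m' + y ^ m'' ≤ 24 * (1 + x ^ 3) := by
    intro m m' m'' a b c
    have := hpw m a
    have := hpw m' b
    have := hpw m'' c
    linarith
  have hP3 : |P| ^ 3 ≤ (K4 * r) ^ 3 := pow_le_pow_left₀ (abs_nonneg _) bP 3
  have hP2 : |P| ^ 2 ≤ (K4 * r) ^ 2 := pow_le_pow_left₀ (abs_nonneg _) bP 2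
  have hdiv : ∀ z : ℝ, 0 ≤ z → z / s ^ 2 ≤ z / s := by
    intro z hz
    exact div_le_div_of_nonneg_left hz hs0 (by nlinarith)
  constructor
  · have t1 : |s ^ 2 * A * P| ≤ K1 * K4 * y ^ 3 / s := by
      rw [abs_mul, abs_mul, abs_of_pos (by positivity : 0 < s ^ 2)]
      calc s ^ 2 * |A| * |P| ≤ s ^ 2 * (K1 * r ^ 2) * (K4 * r) := by gcongr
        _ = _ := by rw [hry]; field_simp
    have t2 : |V * P| ≤ K2 * K4 * y ^ 2 / s := by
      rw [abs_mul]
      calc |V| * |P| ≤ (K2 * r) * (K4 * r) := by gcongr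
        _ = K2 * K4 * y ^ 2 / s ^ 2 := by rw [hry]; field_simp
        _ ≤ _ := hdiv _ (by positivity)
    have t3 : |1 * F| ≤ K3 * y ^ 1 / s := by
      rw [one_mul]
      refine bF.trans (le_of_eq ?_)
      rw [hry]; field_simp
    have h5 : 0 ≤ K1 * K4 := by positivity
    have h6 : 0 ≤ K2 * K4 := by positivity
    obtain ⟨T, hT⟩ : ∃ T, T = K1 * K4 + K2 * K4 + K3 := ⟨_, rfl⟩
    rw [← hT]
    have e1 : K1 * K4 * y ^ 3 / s ≤ T * y ^ 3 / s := by
      have : K1 * K4 ≤ T := by rw [hT]; linarith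
      gcongr
    have e2 : K2 * K4 * y ^ 2 / s ≤ T * y ^ 2 / s := by
      have : K2 * K4 ≤ T := by rw [hT]; linarith
      gcongr
    have e3 : K3 * y ^ 1 / s ≤ T * y ^ 1 / s := by
      have : K3 ≤ T := by rw [hT]; linarith
      gcongr
    have hT0 : 0 ≤ T := by rw [hT]; positivity
    calc _ ≤ |s ^ 2 * A * P| + |V * P| + |1 * F| :=
          (abs_sub _ _).trans (add_le_add (abs_sub _ _) le_rfl)
      _ ≤ T * y ^ 3 / s + T * y ^ 2 / s + T * y ^ 1 / s := by linarith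
      _ = T / s * (y ^ 3 + y ^ 2 + y ^ 1) := by ring
      _ ≤ T / s * (24 * (1 + x ^ 3)) :=
          mul_le_mul_of_nonneg_left (hfin 3 2 1 (by norm_num) (by norm_num) (by norm_num))
            (by positivity)
      _ = _ := by ring
  · have t1 : |s ^ 2 * A * (s ^ 2 * P ^ 3)| ≤ K1 * K4 ^ 3 * y ^ 5 / s := by
      rw [abs_mul, abs_mul, abs_mul, abs_pow P, abs_of_pos (by positivity : 0 < s ^ 2)]
      calc s ^ 2 * |A| * (s ^ 2 * |P| ^ 3) ≤ s ^ 2 * (K1 * r ^ 2) * (s ^ 2 * (K4 * r) ^ 3) := by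
            gcongr
        _ = _ := by rw [hry]; field_simp
    have t2 : |V * (s ^ 2 * P ^ 3)| ≤ K2 * K4 ^ 3 * y ^ 4 / s := by
      rw [abs_mul, abs_mul, abs_pow P, abs_of_pos (by positivity : 0 < s ^ 2)]
      calc |V| * (s ^ 2 * |P| ^ 3) ≤ (K2 * r) * (s ^ 2 * (K4 * r) ^ 3) := by gcongr
        _ = K2 * K4 ^ 3 * y ^ 4 / s ^ 2 := by rw [hry]; field_simp
        _ ≤ _ := hdiv _ (by positivity)
    have t3 : |3 * s ^ 2 * P ^ 2 * F| ≤ 3 * K4 ^ 2 * K3 * y ^ 3 / s := by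
      rw [abs_mul, abs_mul, abs_pow P, abs_of_pos (by positivity : 0 < 3 * s ^ 2)]
      calc 3 * s ^ 2 * |P| ^ 2 * |F| ≤ 3 * s ^ 2 * (K4 * r) ^ 2 * (K3 * r) := by gcongr
        _ = _ := by rw [hry]; field_simp
    have h5 : 0 ≤ K1 * K4 ^ 3 := by positivity
    have h6 : 0 ≤ K2 * K4 ^ 3 := by positivity
    have h7 : 0 ≤ 3 * K4 ^ 2 * K3 := by positivity
    obtain ⟨T, hT⟩ : ∃ T, T = K1 * K4 ^ 3 + K2 * K4 ^ 3 + 3 * K4 ^ 2 * K3 := ⟨_, rfl⟩
    rw [← hT]
    have e1 : K1 * K4 ^ 3 * y ^ 5 / s ≤ T * y ^ 5 / s := by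
      have : K1 * K4 ^ 3 ≤ T := by rw [hT]; linarith
      gcongr
    have e2 : K2 * K4 ^ 3 * y ^ 4 / s ≤ T * y ^ 4 / s := by
      have : K2 * K4 ^ 3 ≤ T := by rw [hT]; linarith
      gcongr
    have e3 : 3 * K4 ^ 2 * K3 * y ^ 3 / s ≤ T * y ^ 3 / s := by
      have : 3 * K4 ^ 2 * K3 ≤ T := by rw [hT]; linarith
      gcongr
    have hT0 : 0 ≤ T := by rw [hT]; positivity
    calc _ ≤ |s ^ 2 * A * (s ^ 2 * P ^ 3)| + |V * (s ^ 2 * P ^ 3)| + |3 * s ^ 2 * P ^ 2 * F| :=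
          (abs_sub _ _).trans (add_le_add (abs_sub _ _) le_rfl)
      _ ≤ T * y ^ 5 / s + T * y ^ 4 / s + T * y ^ 3 / s := by linarith
      _ = T / s * (y ^ 5 + y ^ 4 + y ^ 3) := by ring
      _ ≤ T / s * (24 * (1 + x ^ 3)) :=
          mul_le_mul_of_nonneg_left (hfin 5 4 3 (by norm_num) (by norm_num) (by norm_num))
            (by positivity)
      _ = _ := by ring

/-! ### bounds -/

theorem Cz_card (N : ℕ) [NeZero N] : ((Cz N).card : ℝ) ≤ N ^ 2 := by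
  have h1 : (Cz N).card ≤ N ^ 2 := by
    refine (Finset.card_erase_le).trans ?_
    rw [Finset.card_univ, Fintype.card_prod, Fintype.card_fin, sq]
  exact_mod_cast h1

theorem ioi_card (i : Fin 4) : ((Finset.Ioi i).card : ℝ) ≤ 4 := by
  have h1 : (Finset.Ioi i).card ≤ 4 := by
    refine (Finset.card_le_univ _).trans ?_
    rw [Fintype.card_fin]
  exact_mod_cast h1

/-- the number of the terms -/
theorem sum_bound [NeZero N] [NeZero n] [NeZero L] [NeZero l]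
    (u : Col N → Site n L l → Fin 4 → Fin 4 → ℝ) {B : ℝ} (hB : 0 ≤ B)
    (hu : ∀ α x i j, |u α x i j| ≤ B) :
    |∑ α ∈ Cz N, ∑ x : Site n L l, ∑ i : Fin 4, ∑ j ∈ Finset.Ioi i, u α x i j| ≤
      N ^ 2 * (vol n L l * (4 * (4 * B))) := by
  have hv : 0 ≤ vol n L l := by linarith [(vol_ge (n := n) (L := L) (l := l)).1]
  refine (Finset.abs_sum_le_sum_abs _ _).trans ?_
  refine (Finset.sum_le_card_nsmul _ _ (vol n L l * (4 * (4 * B))) fun α _ => ?_).trans ?_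
  · refine (Finset.abs_sum_le_sum_abs _ _).trans ?_
    refine (Finset.sum_le_card_nsmul _ _ (4 * (4 * B)) fun x _ => ?_).trans ?_
    · refine (Finset.abs_sum_le_sum_abs _ _).trans ?_
      refine (Finset.sum_le_card_nsmul _ _ (4 * B) fun i _ => ?_).trans ?_
      · refine (Finset.abs_sum_le_sum_abs _ _).trans ?_
        refine (Finset.sum_le_card_nsmul _ _ B fun j _ => hu α x i j).trans ?_
        rw [nsmul_eq_mul]
        exact mul_le_mul_of_nonneg_right (ioi_card i) hB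
      · rw [Finset.card_univ, Fintype.card_fin, nsmul_eq_mul]
        norm_num
    · rw [nsmul_eq_mul, card_site]
  · rw [nsmul_eq_mul]
    exact mul_le_mul_of_nonneg_right (Cz_card N) (by positivity)

theorem ph2_bound [NeZero n] [NeZero L] [NeZero l] (k : ℕ) (q : ZMod n × ZMod L → ZMod N)
    (α : Col N) (U : Link n L l → SU N) (i j : Fin 4) (x : Site n L l) :
    ‖ph2 k q α U i j x‖ ≤ N * (N * ss k q U) := by
  unfold ph2
  refine (norm_tr_mul_le _ _).trans (mul_le_mul_of_nonneg_left ?_ (Nat.cast_nonneg _))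
  exact mul_le_mul (norm_SU_le _) (Fc_le k q U x i j) (norm_nonneg _) (Nat.cast_nonneg _)

theorem Ph_bound [NeZero N] [NeZero n] [NeZero L] [NeZero l] (k : ℕ)
    (q : ZMod n × ZMod L → ZMod N) (f : Col N → Fin 4 → Fin 4 → Site n L l → ℂ) {M : ℝ}
    (hM : ∀ α i j x, ‖f α i j x‖ ≤ M) (U : Link n L l → SU N) :
    |Ph k q f U| ≤ N ^ 2 * (vol n L l * (4 * (4 * (M * (N * (N * ss k q U)))))) := by
  have hM0 : 0 ≤ M := (norm_nonneg _).trans (hM (0, 0) 0 0 0)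
  have hs := ss_nonneg k q U
  unfold Ph
  refine sum_bound _ (by positivity) fun α x i j => ?_
  refine (Complex.abs_re_le_norm _).trans ?_
  rw [norm_mul]
  exact mul_le_mul (hM _ _ _ _) (ph2_bound k q α U i j x) (norm_nonneg _) hM0

theorem nb_bound (k : ℕ) (α : Col N) (j : Fin 4) (h : Site n L l → ℂ) {B : ℝ}
    (hB : ∀ x, ‖h x‖ ≤ B) (x : Site n L l) : ‖nb k α j h x‖ ≤ 2 * B := by
  unfold nb
  refine (norm_sub_le _ _).trans ?_
  rw [norm_mul, rh_norm, one_mul]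
  linarith [hB (x + dir j), hB x]

theorem nb_sub (k : ℕ) (α : Col N) (j : Fin 4) (h h' : Site n L l → ℂ) (x : Site n L l) :
    nb k α j h x - nb k α j h' x = nb k α j (fun y => h y - h' y) x := by
  unfold nb
  ring

theorem prg_sub [NeZero N] [NeZero n] [NeZero L] [NeZero l] (k : ℕ)
    (f : Col N → Fin 4 → Fin 4 → Site n L l → ℂ) (a b : Col N → Fin 4 → Site n L l → ℂ)
    {M B : ℝ} (hM : ∀ α i j x, ‖f α i j x‖ ≤ M)
    (hB : ∀ α ∈ Cz N, ∀ i x, ‖a α i x - b α i x‖ ≤ B) (hB0 : 0 ≤ B) :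
    |prg k f a - prg k f b| ≤ N ^ 2 * (vol n L l * (4 * (4 * (M * (4 * B))))) := by
  have hM0 : 0 ≤ M := (norm_nonneg _).trans (hM (0, 0) 0 0 0)
  classical
  have e : prg k f a - prg k f b = ∑ α ∈ Cz N, ∑ x : Site n L l, ∑ i : Fin 4,
      ∑ j ∈ Finset.Ioi i, (if α ∈ Cz N then (f α i j x *
        conj (nb k α i (fun y => a α j y - b α j y) x -
          nb k α j (fun y => a α i y - b α i y) x)).re else 0) := by
    unfold prg
    rw [← Finset.sum_sub_distrib]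
    refine Finset.sum_congr rfl fun α hα => ?_
    rw [← Finset.sum_sub_distrib]
    refine Finset.sum_congr rfl fun x _ => ?_
    rw [← Finset.sum_sub_distrib]
    refine Finset.sum_congr rfl fun i _ => ?_
    rw [← Finset.sum_sub_distrib]
    refine Finset.sum_congr rfl fun j _ => ?_
    rw [if_pos hα, ← nb_sub, ← nb_sub, ← Complex.sub_re]
    congr 1
    rw [← mul_sub, ← map_sub]
    congr 2
    ring
  rw [e]
  refine sum_bound _ (by positivity) fun α x i j => ?_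
  by_cases hα : α ∈ Cz N
  · rw [if_pos hα]
    refine (Complex.abs_re_le_norm _).trans ?_
    rw [norm_mul, RCLike.norm_conj]
    refine mul_le_mul (hM _ _ _ _) ?_ (norm_nonneg _) hM0
    refine (norm_sub_le _ _).trans ?_
    have h1 := nb_bound k α i (fun y => a α j y - b α j y) (hB α hα j) x
    have h2 := nb_bound k α j (fun y => a α i y - b α i y) (hB α hα i) x
    linarith
  · rw [if_neg hα, abs_zero]
    positivity

theorem ng_ne [NeZero N] {α : Col N} (h : α ≠ (0, 0)) : ng α ≠ (0, 0) := by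
  intro h1
  apply h
  have hN := Nat.pos_of_neZero N
  have a1 : (N - (α.1 : ℕ)) % N = 0 := congrArg (fun p : Col N => (p.1 : ℕ)) h1
  have a2 : (N - (α.2 : ℕ)) % N = 0 := congrArg (fun p : Col N => (p.2 : ℕ)) h1
  have key : ∀ c : Fin N, (N - (c : ℕ)) % N = 0 → c = 0 := by
    intro c hc
    have hlt := c.2
    by_contra hne
    have hc0 : (c : ℕ) ≠ 0 := fun h => hne (Fin.ext h)
    rw [Nat.mod_eq_of_lt (by omega)] at hc
    omega
  exact Prod.ext (key _ a1) (key _ a2)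

theorem tw_bound [NeZero N] {χ : Col N → ℂ} (a : Col N → Fin 4 → Site n L l → ℂ)
    (U : Link n L l → SU N) {M' δ : ℝ} (hM' : ∀ α i x, ‖a α i x‖ ≤ M') (hM0 : 0 ≤ M')
    (hδ : 0 ≤ δ)
    (hχ : ∀ (α α' : Col N) (x : Site n L l),
      ‖trace ((Dr α U x).1 * (Dr α' U x).1) - (if α' = ng α then N * χ α else 0)‖ ≤ δ)
    {α : Col N} (hα : α ∈ Cz N) (i : Fin 4) (x : Site n L l) :
    ‖tw a U α i x - tw0 χ a α i x‖ ≤ N ^ 2 * (M' * δ) := by
  have hn : ng α ∈ Cz N :=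
    Finset.mem_erase.2 ⟨ng_ne (Finset.ne_of_mem_erase hα), Finset.mem_univ _⟩
  have e : tw a U α i x - tw0 χ a α i x = ∑ α' ∈ Cz N, conj (a α' i x *
      (trace ((Dr α U x).1 * (Dr α' U x).1) - (if α' = ng α then N * χ α else 0))) := by
    unfold tw tw0
    have e2 : (N : ℂ) * conj (a (ng α) i x * χ α) =
        ∑ α' ∈ Cz N, conj (a α' i x * (if α' = ng α then N * χ α else 0)) := by
      rw [Finset.sum_eq_single (ng α)]
      · rw [if_pos rfl]
        simp only [map_mul, map_natCast]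
        ring
      · intro b _ hb
        rw [if_neg hb, mul_zero, map_zero]
      · intro h
        exact absurd hn h
    rw [e2, ← Finset.sum_sub_distrib]
    refine Finset.sum_congr rfl fun α' _ => ?_
    rw [← map_sub, mul_sub]
  rw [e]
  refine (norm_sum_le _ _).trans ?_
  refine (Finset.sum_le_card_nsmul _ _ (M' * δ) fun α' _ => ?_).trans ?_
  · rw [RCLike.norm_conj, norm_mul]
    exact mul_le_mul (hM' _ _ _) (hχ _ _ _) (norm_nonneg _) hM0
  · rw [nsmul_eq_mul]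
    exact mul_le_mul_of_nonneg_right (Cz_card N) (by positivity)

theorem numerics {A W K1 K2 K3 K4 : ℝ} (hA : 1 ≤ A) (hW : 1 ≤ W) (_h1 : 0 ≤ K1) (_h2 : 0 ≤ K2)
    (h3 : 0 ≤ K3) (h4 : 0 ≤ K4) (b1 : K1 ≤ A * W) (b2 : K2 ≤ A * W) (b3 : K3 ≤ A * W)
    (b4 : K4 ≤ A * W) :
    24 * (K1 * K4 + K2 * K4 + K3) ≤ 120 * A ^ 4 * W ^ 4 ∧
    24 * (K1 * K4 ^ 3 + K2 * K4 ^ 3 + 3 * K4 ^ 2 * K3) ≤ 120 * A ^ 4 * W ^ 4 := by
  obtain ⟨Q, hQ⟩ : ∃ Q, Q = A * W := ⟨_, rfl⟩
  rw [← hQ] at b1 b2 b3 b4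
  have hQ1 : 1 ≤ Q := by rw [hQ]; nlinarith
  have e : A ^ 4 * W ^ 4 = Q ^ 4 := by rw [hQ]; ring
  have q1 : Q ≤ Q ^ 4 := le_self_pow₀ hQ1 (by norm_num)
  have q2 : Q ^ 2 ≤ Q ^ 4 := pow_le_pow_right₀ hQ1 (by norm_num)
  rw [mul_assoc 120, e]
  constructor
  · have c1 : K1 * K4 ≤ Q ^ 2 := by rw [sq]; gcongr
    have c2 : K2 * K4 ≤ Q ^ 2 := by rw [sq]; gcongr
    linarith
  · have c1 : K1 * K4 ^ 3 ≤ Q ^ 4 := by
      calc K1 * K4 ^ 3 ≤ Q * Q ^ 3 := by gcongr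
        _ = _ := by ring
    have c2 : K2 * K4 ^ 3 ≤ Q ^ 4 := by
      calc K2 * K4 ^ 3 ≤ Q * Q ^ 3 := by gcongr
        _ = _ := by ring
    have c3 : K4 ^ 2 * K3 ≤ Q ^ 3 := by
      calc K4 ^ 2 * K3 ≤ Q ^ 2 * Q := by gcongr
        _ = _ := by ring
    have q3 : Q ^ 3 ≤ Q ^ 4 := pow_le_pow_right₀ hQ1 (by norm_num)
    linarith

theorem t_W3 (hQ4 : S_Q4) (hQ5c : S_Q5c) (hQ6 : S_Q6) (h1 : S_R1) (h3 : S_R3) (h4 : S_R4)
    (h5 : S_R5) : S_W3 := by
  intro N k _ hk χ hχ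
  obtain ⟨-, -, Cx, px, hCx, hx⟩ := hχ
  obtain ⟨C4, p4, hC4, q4⟩ := hQ4 N
  obtain ⟨Cg, pg, hCg, q5⟩ := hQ5c N
  obtain ⟨C6, p6, hC6, q6⟩ := hQ6 N
  obtain ⟨C3, p3, hC3, r3⟩ := h3 N
  obtain ⟨Cr, pr', hCr, r4⟩ := h4 N
  obtain ⟨C5, p5, hC5, r5⟩ := h5 N
  obtain ⟨P, hP⟩ : ∃ P : ℕ, P = p6 + pg + p3 + p4 + p5 + pr' + px + 1 := ⟨_, rfl⟩
  obtain ⟨A, hA⟩ : ∃ A : ℝ, A = 8 * C6 * Cg + N ^ 2 * C3 * C4 + 8 * C5 * Cg + 8 * Cr * Cg +
    256 * N ^ 4 * Cg * Cx + 16 * N ^ 4 + 1 := ⟨_, rfl⟩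
  have hN0 : (0 : ℝ) ≤ N := Nat.cast_nonneg N
  have hA1 : 1 ≤ A := by
    have : 0 ≤ 8 * C6 * Cg + N ^ 2 * C3 * C4 + 8 * C5 * Cg + 8 * Cr * Cg +
      256 * N ^ 4 * Cg * Cx + 16 * N ^ 4 := by positivity
    rw [hA]; linarith
  refine ⟨120 * A ^ 4, 4 * P, by positivity, ?_⟩
  intro n L l _ _ _ _ _ μ _ _ q f hf M hM β hβ E hE
  have hM0 : 0 ≤ M := (norm_nonneg _).trans (hM (0, 0) 0 0 0)
  obtain ⟨V, hV⟩ : ∃ V, V = vol n L l := ⟨_, rfl⟩
  have hv := vol_ge (n := n) (L := L) (l := l)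
  rw [← hV] at hv
  have hV0 : 0 ≤ V := by linarith [hv.1]
  have hlV : ∀ p : ℕ, (l : ℝ) ^ p ≤ V ^ p := fun p => pow_le_pow_left₀ (Nat.cast_nonneg _) hv.2 p
  -- the coefficients
  obtain ⟨M', hM'⟩ : ∃ M', M' = Cg * V ^ pg * (8 * M) := ⟨_, rfl⟩
  have hM'0 : 0 ≤ M' := by rw [hM']; positivity
  classical
  obtain ⟨a, ha⟩ : ∃ a : Col N → Fin 4 → Site n L l → ℂ, a = fun α j x =>
    if α = (0, 0) then 0 else po k f α j x := ⟨_, rfl⟩
  have hae : ∀ α : Col N, α ≠ (0, 0) → ∀ b x, po k f α b x = a α b x := by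
    intro α hα b x
    rw [ha]
    beta_reduce
    rw [if_neg hα]
  have haM : ∀ α j x, ‖a α j x‖ ≤ M' := by
    intro α j x
    by_cases hα : α = (0, 0)
    · rw [ha]
      beta_reduce
      rw [if_pos hα, norm_zero]
      exact hM'0
    · rw [← hae α hα, hM', hV]
      exact pot_bound k α (fun h M hh => (q5 n L l k hk α hα).2.2 h M hh) (f α)
        (fun i j x => hM α i j x) j x
  obtain ⟨Kd, hK1, hK2⟩ := r5 n L l k hk a M' haM
  obtain ⟨dF, hdF, hmF, hbF, hmV, hbV, hSD⟩ := h1 N n L l k μ q β f a Kd (C5 * M') hK1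
  obtain ⟨c, hc⟩ : ∃ c, c = cc χ k f := ⟨_, rfl⟩
  rw [← hc]
  have hprg : prg k f a = prg k f (po k f) := by
    have h := prg_sub k f a (po k f) (B := 0) hM (fun α hα i x => by
      rw [← hae α (Finset.ne_of_mem_erase hα), sub_self, norm_zero]) le_rfl
    have h0 : (N : ℝ) ^ 2 * (vol n L l * (4 * (4 * (M * (4 * 0))))) = 0 := by ring
    rw [h0] at h
    exact sub_eq_zero.1 (abs_nonpos_iff.1 h)
  have hprg0 : prg k f (tw0 χ a) = prg k f (tw0 χ (po k f)) := by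
    have h := prg_sub k f (tw0 χ a) (tw0 χ (po k f)) (B := 0) hM (fun α hα i x => by
      unfold tw0
      rw [← hae (ng α) (ng_ne (Finset.ne_of_mem_erase hα)), sub_self, norm_zero]) le_rfl
    have h0 : (N : ℝ) ^ 2 * (vol n L l * (4 * (4 * (M * (4 * 0))))) = 0 := by ring
    rw [h0] at h
    exact sub_eq_zero.1 (abs_nonpos_iff.1 h)
  -- the pointwise bounds
  obtain ⟨K1, hK1'⟩ : ∃ K1, K1 = C6 * V ^ p6 * M' + N ^ 2 * (C3 * V ^ p3 * (C4 * V ^ p4 * M)) :=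
    ⟨_, rfl⟩
  obtain ⟨K2, hK2'⟩ : ∃ K2, K2 = C5 * V ^ p5 * M' := ⟨_, rfl⟩
  obtain ⟨K3, hK3'⟩ : ∃ K3, K3 = Cr * V ^ pr' * (M * M') +
    1 / 2 * (N ^ 2 * (V * (4 * (4 * (M * (4 * (N ^ 2 * (M' * (Cx * V ^ px))))))))) := ⟨_, rfl⟩
  obtain ⟨K4, hK4'⟩ : ∃ K4 : ℝ, K4 = N ^ 2 * (V * (4 * (4 * (M * (N * N))))) := ⟨_, rfl⟩
  have k1 : 0 ≤ K1 := by rw [hK1']; positivity
  have k2 : 0 ≤ K2 := by rw [hK2']; positivity
  have k3 : 0 ≤ K3 := by rw [hK3']; positivity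
  have k4 : 0 ≤ K4 := by rw [hK4']; positivity
  have b1 : ∀ U, |dSq k q U (Ka a U) + Ph k q f U| ≤ K1 * ss k q U ^ 2 := by
    intro U
    have hs := ss_nonneg k q U
    have e6 := q6 n L l k q U a M' haM
    have e3 : ∀ α : Col N, α ≠ (0, 0) → ‖∑ x : Site n L l, ∑ i : Fin 4, ∑ j ∈ Finset.Ioi i,
        (nb k α i (pot k α (f α) j) x - nb k α j (pot k α (f α) i) x - f α i j x) *
          conj (ps k q α U i j x)‖ ≤ C3 * vol n L l ^ p3 * (C4 * l ^ p4 * ss k q U ^ 2 * M) :=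
      fun α hα => r3 n L l k hk α hα (f α) (ps k q α U) M (C4 * l ^ p4 * ss k q U ^ 2)
        (fun i j x => hf α i j x) (fun i j x => Run7.h882.QF.ps_anti k q α U i j x)
        (fun i j x => hM α i j x)
        (fun i j m x hij hjm hmi => q4 n L l k q U α x i j m hij hjm hmi)
    have hB3 : 0 ≤ C3 * vol n L l ^ p3 * (C4 * l ^ p4 * ss k q U ^ 2 * M) := by
      rw [← hV]
      positivity
    refine (Run7.h882.QF.dSq_bound hB3 hae e6 e3).trans ?_
    rw [← hV]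
    have hl4 := hlV p4
    calc C6 * V ^ p6 * M' * ss k q U ^ 2 +
          N ^ 2 * (C3 * V ^ p3 * (C4 * l ^ p4 * ss k q U ^ 2 * M))
        ≤ C6 * V ^ p6 * M' * ss k q U ^ 2 +
          N ^ 2 * (C3 * V ^ p3 * (C4 * V ^ p4 * ss k q U ^ 2 * M)) := by gcongr
      _ = K1 * ss k q U ^ 2 := by rw [hK1']; ring
  have b2 : ∀ U, |dvs Kd U| ≤ K2 * ss k q U := by
    intro U
    have e := hK2 q U
    rw [← hV] at e
    rw [hK2']
    exact e
  have b3 : ∀ U, |dF U + c| ≤ K3 * ss k q U := by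
    intro U
    have hs := ss_nonneg k q U
    have e4 := r4 n L l k hk q U f a M M' hM haM (dF U) (hdF U)
    have hBx : 0 ≤ Cx * l ^ px * ss k q U := by positivity
    have hBt : 0 ≤ N ^ 2 * (M' * (Cx * l ^ px * ss k q U)) := by positivity
    have et := prg_sub k f (tw a U) (tw0 χ a) hM (fun α hα i x =>
      tw_bound (χ := χ) a U haM hM'0 hBx (fun α α' x => hx n L l q U α α' x) hα i x)
      hBt
    rw [← hV] at e4 et
    have e : dF U + c = (dF U + N / 2 * prg k f a - 1 / 2 * prg k f (tw a U)) +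
        1 / 2 * (prg k f (tw a U) - prg k f (tw0 χ a)) := by
      rw [hc, cc, ← hprg, ← hprg0]
      ring
    rw [e]
    refine (abs_add_le _ _).trans ?_
    rw [abs_mul (1 / 2 : ℝ), abs_of_pos (by norm_num : (0 : ℝ) < 1 / 2)]
    have hlx := hlV px
    have et' : |prg k f (tw a U) - prg k f (tw0 χ a)| ≤
        N ^ 2 * (V * (4 * (4 * (M * (4 * (N ^ 2 * (M' * (Cx * V ^ px * ss k q U)))))))) := by
      refine et.trans ?_
      gcongr
    calc _ ≤ Cr * V ^ pr' * (M * M') * ss k q U + 1 / 2 *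
          (N ^ 2 * (V * (4 * (4 * (M * (4 * (N ^ 2 * (M' * (Cx * V ^ px * ss k q U))))))))) :=
          add_le_add e4 (mul_le_mul_of_nonneg_left et' (by norm_num))
      _ = K3 * ss k q U := by rw [hK3']; ring
  have b4 : ∀ U, |Ph k q f U| ≤ K4 * ss k q U := by
    intro U
    have e := Ph_bound k q f hM U
    rw [← hV] at e
    refine e.trans (le_of_eq ?_)
    rw [hK4']; ring
  -- the sizes of the constants
  obtain ⟨W, hW⟩ : ∃ W, W = V ^ P * (1 + M) ^ 2 := ⟨_, rfl⟩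
  have hVP : ∀ i : ℕ, i ≤ P → V ^ i ≤ V ^ P := fun i hi => pow_le_pow_right₀ hv.1 hi
  have hW1 : 1 ≤ W := by
    rw [hW]
    have e1 : 1 ≤ V ^ P := one_le_pow₀ hv.1
    have e2 : 1 ≤ (1 + M) ^ 2 := one_le_pow₀ (by linarith)
    nlinarith
  have m1 : ∀ i : ℕ, i ≤ P → V ^ i * M ≤ W := by
    intro i hi
    rw [hW]
    have e1 := hVP i hi
    have e2 : M ≤ (1 + M) ^ 2 := by nlinarith
    gcongr
  have m2 : ∀ i : ℕ, i ≤ P → V ^ i * M ^ 2 ≤ W := by
    intro i hi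
    rw [hW]
    have e1 := hVP i hi
    have e2 : M ^ 2 ≤ (1 + M) ^ 2 := by nlinarith
    gcongr
  have hpos : 0 ≤ 8 * C6 * Cg ∧ 0 ≤ N ^ 2 * C3 * C4 ∧ 0 ≤ 8 * C5 * Cg ∧ 0 ≤ 8 * Cr * Cg ∧
      0 ≤ 256 * N ^ 4 * Cg * Cx ∧ 0 ≤ 16 * (N : ℝ) ^ 4 := by
    refine ⟨?_, ?_, ?_, ?_, ?_, ?_⟩ <;> positivity
  obtain ⟨o1, o2, o3, o4, o5, o6⟩ := hpos
  have hW0 : 0 ≤ W := by linarith
  have c1 : K1 ≤ A * W := by
    have f1 := m1 (p6 + pg) (by omega)
    have f2 := m1 (p3 + p4) (by omega)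
    calc K1 = 8 * C6 * Cg * (V ^ (p6 + pg) * M) + N ^ 2 * C3 * C4 * (V ^ (p3 + p4) * M) := by
          rw [hK1', hM']; ring
      _ ≤ 8 * C6 * Cg * W + N ^ 2 * C3 * C4 * W := by gcongr
      _ = (8 * C6 * Cg + N ^ 2 * C3 * C4) * W := by ring
      _ ≤ A * W := by
          refine mul_le_mul_of_nonneg_right ?_ hW0
          rw [hA]; linarith
  have c2 : K2 ≤ A * W := by
    have f1 := m1 (p5 + pg) (by omega)
    calc K2 = 8 * C5 * Cg * (V ^ (p5 + pg) * M) := by rw [hK2', hM']; ring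
      _ ≤ 8 * C5 * Cg * W := by gcongr
      _ ≤ A * W := by
          refine mul_le_mul_of_nonneg_right ?_ hW0
          rw [hA]; linarith
  have c3 : K3 ≤ A * W := by
    have f1 := m2 (pr' + pg) (by omega)
    have f2 := m2 (1 + pg + px) (by omega)
    calc K3 = 8 * Cr * Cg * (V ^ (pr' + pg) * M ^ 2) +
          256 * N ^ 4 * Cg * Cx * (V ^ (1 + pg + px) * M ^ 2) := by
          rw [hK3', hM']; ring
      _ ≤ 8 * Cr * Cg * W + 256 * N ^ 4 * Cg * Cx * W := by gcongr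
      _ = (8 * Cr * Cg + 256 * N ^ 4 * Cg * Cx) * W := by ring
      _ ≤ A * W := by
          refine mul_le_mul_of_nonneg_right ?_ hW0
          rw [hA]; linarith
  have c4 : K4 ≤ A * W := by
    have f1 := m1 1 (by omega)
    calc K4 = 16 * N ^ 4 * (V ^ 1 * M) := by rw [hK4']; ring
      _ ≤ 16 * N ^ 4 * W := by gcongr
      _ ≤ A * W := by
          refine mul_le_mul_of_nonneg_right ?_ hW0
          rw [hA]; linarith
  obtain ⟨n1, n2⟩ := numerics hA1 hW1 k1 k2 k3 k4 c1 c2 c3 c4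
  have hWe : W ^ 4 = V ^ (4 * P) * (1 + M) ^ 8 := by
    rw [hW]; ring
  -- conclusion
  obtain ⟨s, hs⟩ : ∃ s, s = Real.sqrt β := ⟨_, rfl⟩
  have hs1 : 1 ≤ s := by
    rw [hs]
    exact Real.one_le_sqrt.2 hβ
  have hs0 : 0 < s := by linarith
  have hss : s ^ 2 = β := by
    rw [hs]
    exact Real.sq_sqrt (by linarith)
  have hI0 : 0 ≤ ∫ U, (1 + (β * Sq k q U) ^ 3) * Real.exp (-(β * Sq k q U))
      ∂(Measure.pi fun _ : Link n L l => μ) := by
    refine integral_nonneg fun U => ?_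
    have := two_Sq_nonneg k q U
    have : 0 ≤ β * Sq k q U := by nlinarith
    positivity
  have hrem := fun U => rem_bound (x := β * Sq k q U) (A := dSq k q U (Ka a U) + Ph k q f U)
    (P := Ph k q f U) (V := dvs Kd U) (F := dF U + c) hs1 (ss_nonneg k q U)
    (by rw [mul_pow, hss, ss_sq' k q U]; ring) k1 k2 k3 k4 (b1 U) (b4 U) (b2 U) (b3 U)
  have hEE : ∀ K : ℝ, K ≤ 120 * A ^ 4 * W ^ 4 →
      K / s * ∫ U, (1 + (β * Sq k q U) ^ 3) * Real.exp (-(β * Sq k q U))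
        ∂(Measure.pi fun _ : Link n L l => μ) ≤ E := by
    intro K hK
    rw [hE, ← hV, ← hs]
    refine mul_le_mul_of_nonneg_right ?_ hI0
    refine div_le_div_of_nonneg_right ?_ hs0.le
    refine hK.trans (le_of_eq ?_)
    rw [hWe]; ring
  constructor
  · have h := gen_form μ k q β f a (dvs Kd) dF hmF hbF hmV hbV c
      (24 * (K1 * K4 + K2 * K4 + K3) / s) (fun y => y) (fun _ => 1) continuous_id
      continuous_const (fun U => by
        have := (hrem U).1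
        rwa [hss] at this) (hSD _ _ (fun y => hasDerivAt_id y) continuous_const)
    refine le_trans (le_of_eq ?_) (h.trans (hEE _ n1))
    congr 1
    refine integral_congr_ae (Eventually.of_forall fun U => ?_)
    show (β * Ph k q f U ^ 2 - c) * _ = (β * Ph k q f U * Ph k q f U - c * 1) * _
    ring
  · have hd3 : ∀ y : ℝ, HasDerivAt (fun y : ℝ => β * y ^ 3) (3 * β * y ^ 2) y := by
      intro y
      refine ((hasDerivAt_pow 3 y).const_mul β).congr_deriv ?_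
      norm_num
      ring
    have h := gen_form μ k q β f a (dvs Kd) dF hmF hbF hmV hbV c
      (24 * (K1 * K4 ^ 3 + K2 * K4 ^ 3 + 3 * K4 ^ 2 * K3) / s) (fun y => β * y ^ 3)
      (fun y => 3 * β * y ^ 2) (by fun_prop) (by fun_prop) (fun U => by
        have := (hrem U).2
        rwa [hss] at this) (hSD _ _ hd3 (by fun_prop))
    refine le_trans (le_of_eq ?_) (h.trans (hEE _ n2))
    congr 1
    refine integral_congr_ae (Eventually.of_forall fun U => ?_)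
    show (β ^ 2 * Ph k q f U ^ 4 - 3 * c * (β * Ph k q f U ^ 2)) * _ =
      (β * Ph k q f U * (β * Ph k q f U ^ 3) - c * (3 * β * Ph k q f U ^ 2)) * _
    ring

end

end Run7.h771.QW
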